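import Pool.Agent.H66.SqnDefs
import Pool.Agent.H66.Sqn2

namespace Pool.Agent.Results.MP_20dafb_an.Roots
open Pool.Agent.H66.Sqn

theorem result (H : Type*) [NormedAddCommGroup H] [InnerProductSpace ℂ H] [CompleteSpace H]
    (d : ℕ) (T : Fin d → H →L[ℂ] H) (hc : Commuting T) (hh : JointlyHyponormal T)
    (n : ℕ) (hn : 1 ≤ n) (h : SphQuasinormal (tuplePow T n)) : SphQuasinormal T :=
  thm hc hh hn h

end Pool.Agent.Results.MP_20dafb_an.Roots
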